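import Mathlib

set_option autoImplicit false
set_option linter.unusedSectionVars false

namespace Pool.Agent.H.MP_c8f9b2_an
open Filter Set Topology MeasureTheory

lemma mon {f f' : ℝ → ℝ} (h : ∀ᶠ r in atTop, HasDerivAt f (f' r) r ∧ 0 ≤ f' r) :
    ∃ R, 0 < R ∧ MonotoneOn f (Ici R) := by
  obtain ⟨R, hR⟩ := eventually_atTop.1 (h.and (eventually_gt_atTop 0))
  refine ⟨R, (hR R le_rfl).2, monotoneOn_of_deriv_nonneg (convex_Ici R)
    (fun r hr => (hR r hr).1.1.continuousAt.continuousWithinAt)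
    (fun r hr => (hR r (interior_subset hr)).1.1.differentiableAt.differentiableWithinAt)
    fun r hr => ?_⟩
  rw [(hR r (interior_subset hr)).1.1.deriv]
  exact (hR r (interior_subset hr)).1.2

lemma grow {f f' : ℝ → ℝ} {c : ℝ} (hc : 0 < c) (a : ℕ)
    (h : ∀ᶠ r in atTop, HasDerivAt f (f' r) r ∧ c * r ^ a ≤ f' r) :
    ∀ᶠ r in atTop, c / (2 * (a + 1)) * r ^ (a + 1) ≤ f r := by
  have ha : (0 : ℝ) < a + 1 := by positivity
  obtain ⟨R, -, hR⟩ := mon (f := fun r => f r - c / (a + 1) * r ^ (a + 1))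
    (f' := fun r => f' r - c * r ^ a) (h.mono fun r hr => ⟨by
      refine (hr.1.sub ((hasDerivAt_pow (a + 1) r).const_mul (c / (a + 1)))).congr_deriv ?_
      simp; field_simp, by linarith [hr.2]⟩)
  have ht : Tendsto (fun r : ℝ => c / (2 * (a + 1)) * r ^ (a + 1)) atTop atTop :=
    (tendsto_pow_atTop (by omega)).const_mul_atTop (by positivity)
  filter_upwards [eventually_ge_atTop R,
    ht.eventually_ge_atTop (-(f R - c / (a + 1) * R ^ (a + 1)))] with r h1 h2
  have := hR self_mem_Ici h1 h1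
  have e : c / (a + 1) * r ^ (a + 1) = 2 * (c / (2 * (a + 1)) * r ^ (a + 1)) := by field_simp
  simp only at this
  linarith

lemma decay {f f' : ℝ → ℝ} {K : ℝ} (_hK : 0 < K) (b : ℕ)
    (h : ∀ᶠ r in atTop, HasDerivAt f (f' r) r ∧ K / r ^ (b + 2) ≤ f' r)
    (hn : ∀ c, 0 < c → ¬ ∀ᶠ r in atTop, c ≤ f r) :
    ∀ᶠ r in atTop, K / (b + 1) / r ^ (b + 1) ≤ - f r := by
  have hb : (0 : ℝ) < b + 1 := by positivity
  obtain ⟨R, -, hR⟩ := mon (f := fun r => f r + K / (b + 1) * (r ^ (b + 1))⁻¹)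
    (f' := fun r => f' r - K / r ^ (b + 2))
    ((h.and (eventually_gt_atTop 0)).mono fun r hr => ⟨by
      have r0 := hr.2.ne'
      refine (hr.1.1.add (((hasDerivAt_pow (b + 1) r).inv (pow_ne_zero _ r0)).const_mul
        (K / (b + 1)))).congr_deriv ?_
      simp; field_simp; ring, by linarith [hr.1.2]⟩)
  have ht : Tendsto (fun r : ℝ => K / (b + 1) * (r ^ (b + 1))⁻¹) atTop (𝓝 0) := by
    simpa using (tendsto_pow_atTop (n := b + 1) (by omega)).inv_tendsto_atTop.const_mul
      (K / (b + 1) : ℝ)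
  filter_upwards [eventually_ge_atTop R] with r h1
  by_contra hh
  rw [not_le, div_eq_mul_inv] at hh
  refine hn ((f r + K / (b + 1) * (r ^ (b + 1))⁻¹) / 2) (by linarith) ?_
  filter_upwards [eventually_ge_atTop r, ht.eventually (gt_mem_nhds
    (show 0 < (f r + K / (b + 1) * (r ^ (b + 1))⁻¹) / 2 by linarith))] with t h2 h3
  have := hR h1 (h1.trans h2) h2
  simp only at this
  linarith

variable {n : ℕ} {w p : ℕ → ℝ → ℝ}
  (hw : ∀ j ≤ n, ∀ r, 0 < r → HasDerivAt (w j) (p j r / r ^ (2 * n + 1)) r)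
  (hp : ∀ j ≤ n, ∀ r, 0 < r → HasDerivAt (p j) (r ^ (2 * n + 1) * w (j + 1) r) r)
  (hm : ∀ r, 0 < r → w (n + 1) r = - Real.exp (w 0 r))
  (hV : Tendsto (fun r => - p n r) atTop atTop)

include hw hp

lemma up1 {j : ℕ} (hj : j ≤ n) (s : ℝ) {c : ℝ} (hc : 0 < c)
    (h : ∀ᶠ r in atTop, c ≤ s * w (j + 1) r) :
    ∃ d, 0 < d ∧ ∀ᶠ r in atTop, d * r ^ (2 * n + 2) ≤ s * p j r := by
  refine ⟨_, by positivity, grow hc (2 * n + 1) (f := fun r => s * p j r)
    (f' := fun r => s * (r ^ (2 * n + 1) * w (j + 1) r)) ?_⟩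
  filter_upwards [h, eventually_gt_atTop 0] with r h1 h2
  refine ⟨(hp j hj r h2).const_mul s, ?_⟩
  have := mul_le_mul_of_nonneg_left h1 (pow_pos h2 (2 * n + 1)).le
  linarith

lemma up2 {j : ℕ} (hj : j ≤ n) (s : ℝ) {c : ℝ} (hc : 0 < c)
    (h : ∀ᶠ r in atTop, c ≤ s * w (j + 1) r) :
    ∃ d, 0 < d ∧ ∀ᶠ r in atTop, d ≤ s * w j r := by
  obtain ⟨d, d0, hd⟩ := up1 hw hp hj s hc h
  have := grow d0 1 (f := fun r => s * w j r) (f' := fun r => s * (p j r / r ^ (2 * n + 1))) (by
    filter_upwards [hd, eventually_gt_atTop 0] with r h1 h2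
    refine ⟨(hw j hj r h2).const_mul s, ?_⟩
    rw [← mul_div_assoc, le_div_iff₀ (pow_pos h2 _)]
    exact (le_of_eq (by ring)).trans h1)
  refine ⟨d / (2 * ((1 : ℕ) + 1)), by positivity, ?_⟩
  filter_upwards [this, eventually_ge_atTop 1] with r h1 h2
  exact (le_mul_of_one_le_right (by positivity) (one_le_pow₀ h2)).trans h1

include hm hV

lemma fin (h : ∀ᶠ r in atTop, (2 * n + 3) * r ^ (2 * n) ≤ -1 * p 0 r) : False := by
  obtain ⟨R, R0, hR⟩ := mon (f := fun r => -(w 0 r + (2 * n + 3 : ℕ) * Real.log r))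
    (f' := fun r => -(p 0 r / r ^ (2 * n + 1) + (2 * n + 3 : ℕ) * r⁻¹)) (by
      filter_upwards [h, eventually_gt_atTop 0] with r h1 h2
      refine ⟨((hw 0 (by omega) r h2).add ((Real.hasDerivAt_log h2.ne').const_mul _)).neg, ?_⟩
      have : p 0 r / r ^ (2 * n + 1) ≤ -((2 * n + 3 : ℕ) * r⁻¹) := by
        rw [div_le_iff₀ (pow_pos h2 _)]
        have : ((2 * n + 3 : ℕ) * r⁻¹) * r ^ (2 * n + 1) = (2 * n + 3) * r ^ (2 * n) := by
          push_cast; field_simp; ring
        linarith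
      linarith)
  set C := Real.exp (w 0 R + (2 * n + 3 : ℕ) * Real.log R) with hC
  obtain ⟨S, S0, hS⟩ := mon (f := fun r => p n r - C * r⁻¹)
    (f' := fun r => r ^ (2 * n + 1) * w (n + 1) r - C * (-(r ^ 2)⁻¹)) (by
      filter_upwards [eventually_ge_atTop R] with r h1
      have r0 := R0.trans_le h1
      refine ⟨(hp n le_rfl r r0).sub ((hasDerivAt_inv r0.ne').const_mul C), ?_⟩
      have := hR self_mem_Ici h1 h1
      simp only [neg_le_neg_iff] at this
      have h2 := Real.exp_le_exp.2 this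
      rw [← hC, Real.exp_add, ← Real.log_pow, Real.exp_log (pow_pos r0 _)] at h2
      rw [hm r r0]
      have : r ^ (2 * n + 1) * Real.exp (w 0 r) ≤ C * (r ^ 2)⁻¹ := by
        rw [← div_eq_mul_inv, le_div_iff₀ (pow_pos r0 _)]
        exact (le_of_eq (by ring)).trans h2
      linarith)
  obtain ⟨r, h1, h2⟩ := ((eventually_ge_atTop S).and
    (hV.eventually_gt_atTop (-(p n S - C * S⁻¹)))).exists
  have := hS self_mem_Ici h1 h1
  have : 0 < C * r⁻¹ := mul_pos (Real.exp_pos _) (inv_pos.2 (S0.trans_le h1))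
  simp only at *
  linarith

lemma neg {j : ℕ} (hj : j ≤ n) {c : ℝ} (hc : 0 < c)
    (h : ∀ᶠ r in atTop, c ≤ -1 * w (j + 1) r) : False := by
  induction j generalizing c with
  | zero =>
    obtain ⟨d, d0, hd⟩ := up1 hw hp hj _ hc h
    refine fin hw hp hm hV ?_
    have ht : Tendsto (fun r : ℝ => d * r ^ 2) atTop atTop :=
      (tendsto_pow_atTop (by omega)).const_mul_atTop d0
    filter_upwards [hd, ht.eventually_ge_atTop (2 * n + 3), eventually_ge_atTop 0] with r h1 h2 h3
    refine (mul_le_mul_of_nonneg_right h2 (pow_nonneg h3 _)).trans (le_trans (le_of_eq ?_) h1)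
    ring
  | succ j ih =>
    obtain ⟨d, d0, hd⟩ := up2 hw hp hj _ hc h
    exact ih (by omega) d0 hd

lemma low {C : ℝ} (h : ∀ᶠ r in atTop, C ≤ w 0 r) : False := by
  refine neg hw hp hm hV le_rfl (Real.exp_pos C) ?_
  filter_upwards [h, eventually_gt_atTop 0] with r h1 h2
  rw [hm r h2]
  simpa using h1

lemma pos {j : ℕ} (hj : j ≤ n) {c : ℝ} (hc : 0 < c)
    (h : ∀ᶠ r in atTop, c ≤ 1 * w j r) : False := by
  induction j generalizing c with
  | zero => exact low hw hp hm hV (by simpa using h)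
  | succ j ih =>
    obtain ⟨d, d0, hd⟩ := up2 hw hp (by omega) _ hc h
    exact ih (by omega) d0 hd

lemma alt (k : ℕ) : ∀ j, j + k = n → ∃ s : ℝ, (s = 1 ∨ s = -1) ∧ ∀ K, 0 < K →
    ∀ᶠ r in atTop, K * r ^ (2 * k) ≤ s * p j r := by
  induction k with
  | zero =>
    rintro j rfl
    exact ⟨-1, .inr rfl, fun K _ => by simpa using hV.eventually_ge_atTop K⟩
  | succ k ih =>
    intro j hj
    obtain ⟨s, hs, h⟩ := ih (j + 1) (by omega)
    refine ⟨-s, by rcases hs with rfl | rfl <;> simp, fun K hK => ?_⟩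
    set L : ℝ := K * (2 * ((2 * k + 1 : ℕ) + 1)) * ((2 * j + 1 : ℕ) + 1) with hL
    have L0 : 0 < L := by positivity
    have e : 2 * n + 1 = 2 * k + (2 * j + 1 + 2) := by omega
    have h1 := decay L0 (2 * j + 1) (f := fun r => s * w (j + 1) r)
      (f' := fun r => s * (p (j + 1) r / r ^ (2 * n + 1))) (by
        filter_upwards [h L L0, eventually_gt_atTop 0] with r h1 h2
        refine ⟨(hw _ (by omega) r h2).const_mul s, ?_⟩
        rw [← mul_div_assoc, div_le_div_iff₀ (pow_pos h2 _) (pow_pos h2 _), e, pow_add,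
          ← mul_assoc]
        exact mul_le_mul_of_nonneg_right h1 (pow_pos h2 _).le) fun c hc hh => by
        rcases hs with rfl | rfl
        · exact pos hw hp hm hV (by omega) hc hh
        · exact neg hw hp hm hV (by omega) hc hh
    have h2 := grow (c := L / ((2 * j + 1 : ℕ) + 1)) (by positivity) (2 * k + 1)
      (f := fun r => -s * p j r) (f' := fun r => -s * (r ^ (2 * n + 1) * w (j + 1) r)) (by
        filter_upwards [h1, eventually_gt_atTop 0] with r h1 h2
        refine ⟨(hp _ (by omega) r h2).const_mul _, ?_⟩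
        rw [div_le_iff₀ (pow_pos h2 _)] at h1
        have := mul_le_mul_of_nonneg_right h1 (pow_pos h2 (2 * k + 1)).le
        refine this.trans (le_of_eq ?_)
        rw [e]; ring)
    refine h2.mono fun r hr => le_trans (le_of_eq ?_) hr
    rw [hL]; field_simp; ring

lemma fls : False := by
  obtain ⟨s, hs, h⟩ := alt hw hp hm hV n 0 (by omega)
  rcases hs with rfl | rfl
  · obtain ⟨R, -, hR⟩ := mon (f := w 0) (f' := fun r => p 0 r / r ^ (2 * n + 1)) (by
      filter_upwards [h 1 one_pos, eventually_gt_atTop 0] with r h1 h2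
      refine ⟨hw 0 (by omega) r h2, div_nonneg ?_ (pow_pos h2 _).le⟩
      have := pow_pos h2 (2 * n)
      linarith)
    exact low hw hp hm hV ((eventually_ge_atTop R).mono fun r hr => hR self_mem_Ici hr hr)
  · exact fin hw hp hm hV (h _ (by positivity))

omit hV in
theorem main (hc : ContinuousOn (w 0) (Ici 0)) :
    IntegrableOn (fun r => r ^ (2 * n + 1) * Real.exp (w 0 r)) (Ioi 0) := by
  have hd : ∀ r ∈ Ici (1 : ℝ), HasDerivAt (fun r => - p n r)
      (r ^ (2 * n + 1) * Real.exp (w 0 r)) r := fun r hr => by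
    have r0 : 0 < r := one_pos.trans_le hr
    refine (hp n le_rfl r r0).neg.congr_deriv ?_
    rw [hm r r0]; ring
  have h0 : ∀ r ∈ Ici (1 : ℝ), 0 ≤ r ^ (2 * n + 1) * Real.exp (w 0 r) := fun r hr =>
    mul_nonneg (pow_nonneg (zero_le_one.trans hr) _) (Real.exp_pos _).le
  have hM : MonotoneOn (fun r => - p n r) (Ici 1) := monotoneOn_of_deriv_nonneg (convex_Ici 1)
    (fun r hr => (hd r hr).continuousAt.continuousWithinAt)
    (fun r hr => (hd r (interior_subset hr)).differentiableAt.differentiableWithinAt)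
    fun r hr => by rw [(hd r (interior_subset hr)).deriv]; exact h0 r (interior_subset hr)
  have he : (fun r => - p n (max r 1)) =ᶠ[atTop] fun r => - p n r :=
    (eventually_ge_atTop 1).mono fun r hr => by simp only [max_eq_left hr]
  rcases tendsto_atTop_of_monotone (f := fun r => - p n (max r 1)) (fun a b hab =>
    hM (mem_Ici.2 (le_max_right a 1)) (mem_Ici.2 (le_max_right b 1)) (max_le_max_right 1 hab)) with h | ⟨l, h⟩
  · exact (fls hw hp hm (h.congr' he)).elim
  · rw [← Ioc_union_Ioi_eq_Ioi zero_le_one]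
    refine IntegrableOn.union ?_ (integrableOn_Ioi_deriv_of_nonneg' hd
      (fun r hr => h0 r (Ioi_subset_Ici_self hr)) (h.congr' he))
    exact (((continuousOn_pow _).mul (hc.mono Icc_subset_Ici_self).rexp).integrableOn_compact
      isCompact_Icc).mono_set Ioc_subset_Icc_self

end Pool.Agent.H.MP_c8f9b2_an
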